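import Mathlib
import Pool.Agent.R173.Tri120Main

/-!
# Side lengths of equilateral triangles tiled by a triangle with an angle of 120 degrees

If `a`, `b`, `c` are positive integers with `gcd (a, b) = 1` and `c^2 = a^2 + b^2 + a b`, then the side
of every equilateral triangle that can be tiled by triangles with sides `a`, `b`, `c` is a positive
integer multiple of `a b`.

Proof.  Let `β` be the angle of the tile opposite to `b`; it is not a rational multiple of `π`
(Niven).  Choose an integer `s` with `c s = a` modulo `b`; then `s^2 = 1` modulo `b`.  Give the
direction `± z e^(i j β)`, where `z` is the direction of the base of the large triangle, the weight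
`± s^j` and all other directions the weight `0`.  In the sum of length times weight over all sides
of all tiles (traversed counterclockwise) everything cancels except for the boundary, which
contributes `X`; and each tile contributes `0` modulo `b`, because its sides of lengths `a` and `c`
make the angle `β`.  So `b` divides `X`, and so does `a` by symmetry.
-/

set_option autoImplicit false

namespace Pool.Agent.Results.MP_9dc182_co.SideDivisible

/-- the Euclidean plane -/
abbrev Plane : Type := EuclideanSpace ℝ (Fin 2)

/-- the closed (solid) triangle with vertices `p 0`, `p 1`, `p 2` -/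
def tri (p : Fin 3 → Plane) : Set Plane := convexHull ℝ (Set.range p)

/-- the triangle with vertices `p 0`, `p 1`, `p 2` has the side lengths `x` (opposite to `p 0`),
`y` (opposite to `p 1`) and `z` (opposite to `p 2`) -/
def HasSides (p : Fin 3 → Plane) (x y z : ℝ) : Prop :=
  dist (p 1) (p 2) = x ∧ dist (p 2) (p 0) = y ∧ dist (p 0) (p 1) = z

/-- `X` is equiconstructible by `(a, b, c)`: some equilateral triangle `T` of side `X > 0` is the union
of finitely many triangles `P i` with side lengths `a`, `b`, `c` (in either orientation) with pairwise
disjoint interiors -/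
def Equiconstructible (a b c : ℕ) (X : ℝ) : Prop :=
  0 < X ∧ ∃ (T : Fin 3 → Plane) (N : ℕ) (P : Fin N → Fin 3 → Plane),
    HasSides T X X X ∧ (∀ i, HasSides (P i) a b c) ∧ (⋃ i, tri (P i)) = tri T ∧
      ∀ i j, i ≠ j → Disjoint (interior (tri (P i))) (interior (tri (P j)))

/-- **Theorem.** Let `a`, `b`, `c` be positive integers with `gcd (a, b) = 1` and
`c^2 = a^2 + b^2 + a b`.  Every `X` that is equiconstructible by `(a, b, c)` is `m a b` for a positive
integer `m`. -/
theorem result (a b c : ℕ) (ha : 0 < a) (hb : 0 < b) (hab : Nat.Coprime a b)
    (hc : c ^ 2 = a ^ 2 + b ^ 2 + a * b) (X : ℝ) (hX : Equiconstructible a b c X) :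
    ∃ m : ℕ, 0 < m ∧ X = m * (a * b) := by
  obtain ⟨h0, T, N, P, hT, hP, hU, hD⟩ := hX
  exact Pool.Agent.R173.Tri120.main ha hb hab hc h0 hT hP hU hD

end Pool.Agent.Results.MP_9dc182_co.SideDivisible
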